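import Mathlib
import Pool.Agent.Helper65.Cond5

/-!
# MP_9c370f_an: right amenable semigroups of rational functions, full answer to Q1

For a semigroup of rational functions of degree at least two that contains a non-special
function, conditions 1, 2, 3, 4 and 5 of the problem are equivalent.
-/

open MeasureTheory

namespace Pool.Agent.Results.MP_9c370f_an.RightAmenableTFAE

/-- The composition `A ∘ B` of two rational functions, i.e. `B` substituted for the variable
in `A`. -/
noncomputable def comp (A B : RatFunc ℂ) : RatFunc ℂ := RatFunc.eval RatFunc.C B A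

/-- The degree of a rational function: the maximum of the degrees of numerator and denominator
in lowest terms. -/
noncomputable def deg (A : RatFunc ℂ) : ℕ := max A.num.natDegree A.denom.natDegree

/-- The `n`-th iterate `A ∘ ... ∘ A`. -/
noncomputable def iter (A : RatFunc ℂ) (n : ℕ) : RatFunc ℂ := (comp A)^[n] RatFunc.X

/-- `S` is a semigroup of rational functions of degree at least two. -/
def IsSemigroup (S : Set (RatFunc ℂ)) : Prop :=
  (∀ A ∈ S, ∀ B ∈ S, comp A B ∈ S) ∧ ∀ A ∈ S, 2 ≤ deg A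

/-- Condition 1. `S` is right amenable: there is a finitely additive probability measure `μ` on
all subsets of `S` with `μ {W ∈ S | W ∘ A ∈ T} = μ T` for all `T ⊆ S` and `A ∈ S`. -/
def RightAmenable (S : Set (RatFunc ℂ)) : Prop :=
  ∃ μ : Set (RatFunc ℂ) → ℝ, (∀ T, T ⊆ S → 0 ≤ μ T) ∧ μ S = 1 ∧
    (∀ T U, T ⊆ S → U ⊆ S → Disjoint T U → μ (T ∪ U) = μ T + μ U) ∧
    ∀ T, T ⊆ S → ∀ A ∈ S, μ {W | W ∈ S ∧ comp W A ∈ T} = μ T

/-- Condition 2. `S` is right reversible. -/
def RightReversible (S : Set (RatFunc ℂ)) : Prop :=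
  ∀ A ∈ S, ∀ B ∈ S, ∃ X ∈ S, ∃ Y ∈ S, comp X A = comp Y B

/-- Condition 3. -/
def Condition3 (S : Set (RatFunc ℂ)) : Prop :=
  ∀ A ∈ S, ∀ B ∈ S, ∃ k l : ℕ, 1 ≤ k ∧ 1 ≤ l ∧
    iter A (2 * k) = comp (iter A k) (iter B l) ∧
    iter B (2 * l) = comp (iter B l) (iter A k)

/-- The composition of the word `w` in the letters `A` (for `true`) and `B` (for `false`). -/
noncomputable def wordComp (A B : RatFunc ℂ) (w : List Bool) : RatFunc ℂ :=
  w.foldr (fun b X => comp (if b then A else B) X) RatFunc.X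

/-- Condition 4. `S` has no free subsemigroup of rank two. -/
def NoFreeSubsemigroup (S : Set (RatFunc ℂ)) : Prop :=
  ¬ ∃ A ∈ S, ∃ B ∈ S, ∀ w w' : List Bool, w ≠ [] → w' ≠ [] → w ≠ w' →
    wordComp A B w ≠ wordComp A B w'

/-- `A` and `B` are conjugate by a Möbius transformation `M`, i.e. `M ∘ A = B ∘ M` for a rational
function `M` of degree one. -/
def MobConj (A B : RatFunc ℂ) : Prop := ∃ M : RatFunc ℂ, deg M = 1 ∧ comp M A = comp B M

open Filter in
/-- Lattès maps: there are a lattice `Λ` in `ℂ`, an affine map `z ↦ α z + β` with `α Λ ⊆ Λ` and a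
nonconstant `Λ`-periodic meromorphic function `Θ` with `A (Θ z) = Θ (α z + β)`. Equalities of
meromorphic functions are equalities outside a closed discrete set. -/
def IsLattes (A : RatFunc ℂ) : Prop :=
  ∃ (Λ : AddSubgroup ℂ) (Θ : ℂ → ℂ) (α β : ℂ),
    DiscreteTopology Λ ∧ Submodule.span ℝ (Λ : Set ℂ) = ⊤ ∧ (∀ ω ∈ Λ, α * ω ∈ Λ) ∧
    MeromorphicOn Θ Set.univ ∧ (¬ ∃ c : ℂ, ∀ᶠ z in codiscrete ℂ, Θ z = c) ∧
    (∀ ω ∈ Λ, ∀ᶠ z in codiscrete ℂ, Θ (z + ω) = Θ z) ∧
    ∀ᶠ z in codiscrete ℂ, RatFunc.eval (RingHom.id ℂ) (Θ z) A = Θ (α * z + β)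

/-- The Chebyshev polynomial `T_n` as a rational function. -/
noncomputable def chebT (n : ℕ) : RatFunc ℂ :=
  algebraMap (Polynomial ℂ) (RatFunc ℂ) (Polynomial.Chebyshev.T ℂ n)

/-- Special rational functions: Lattès maps and the functions conjugate to `z ^ n`, `z ^ (-n)`,
`T_n` or `- T_n` for some `n ≥ 2`. -/
def Special (A : RatFunc ℂ) : Prop :=
  IsLattes A ∨ ∃ n : ℕ, 2 ≤ n ∧ (MobConj A (RatFunc.X ^ n) ∨ MobConj A (1 / RatFunc.X ^ n) ∨
    MobConj A (chebT n) ∨ MobConj A (- chebT n))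

/-- `μ` is a balanced measure of the rational function `P`: a Borel probability measure (on `ℂ`,
the point at infinity has measure zero) without atoms and with constant Jacobian `deg P`. By
Freire, Lopes, Mañé and Lyubich the unique such measure is the measure `μ_P` of maximal
entropy. -/
def IsBalanced (P : RatFunc ℂ) (μ : Measure ℂ) : Prop :=
  μ Set.univ = 1 ∧ (∀ z, μ {z} = 0) ∧
    ∀ A : Set ℂ, MeasurableSet A → (∀ z ∈ A, P.denom.eval z ≠ 0) →
      Set.InjOn (fun z => P.eval (RingHom.id ℂ) z) A →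
      μ ((fun z => P.eval (RingHom.id ℂ) z) '' A) = deg P * μ A

/-- `E(P)`: the rational functions `X` of degree at least two with `μ_X = μ_P`, i.e. some `μ` is
the unique balanced measure of `X` and the unique balanced measure of `P`. -/
def E (P : RatFunc ℂ) : Set (RatFunc ℂ) :=
  {X | 2 ≤ deg X ∧ ∃ μ : Measure ℂ, (∀ ν, IsBalanced X ν ↔ ν = μ) ∧ ∀ ν, IsBalanced P ν ↔ ν = μ}

/-- Condition 5. `S ⊆ E(P)` for some non-special rational function `P` of degree at least two. -/
def Condition5 (S : Set (RatFunc ℂ)) : Prop :=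
  ∃ P : RatFunc ℂ, 2 ≤ deg P ∧ ¬ Special P ∧ S ⊆ E P

/-- For every semigroup of rational functions of degree at least two that contains a non-special
function, conditions 1, 2, 3, 4 and 5 are equivalent. -/
theorem result (S : Set (RatFunc ℂ)) (hS : IsSemigroup S) (hns : ∃ P ∈ S, ¬ Special P) :
    List.TFAE [RightAmenable S, RightReversible S, Condition3 S, NoFreeSubsemigroup S,
      Condition5 S] := by
  obtain ⟨P, hP, hPs⟩ := hns
  have hb : ∀ (Q : RatFunc ℂ) (ν : Measure ℂ),
      Pool.Agent.Helper59.EP.IsMME Q ν ↔ IsBalanced Q ν := fun Q ν =>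
    ⟨fun h => ⟨h.prob, h.noAtoms, h.jac⟩, fun h => ⟨h.1, h.2.1, h.2.2⟩⟩
  have h := Pool.Agent.Helper65.tfae_five ⟨P, hP⟩ hS.1 hS.2 hP hPs
  simp only [hb] at h
  exact h

end Pool.Agent.Results.MP_9c370f_an.RightAmenableTFAE
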