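import Mathlib
import Pool.Agent.Helper65.SemiFinal

/-!
# MP_9c370f_an: condition 3 implies right amenability (3 => 1)
-/

namespace Pool.Agent.Results.MP_9c370f_an.ThreeImpliesOne

/-- The composition `A ∘ B` of two rational functions, i.e. `B` substituted for the variable
in `A`. -/
noncomputable def comp (A B : RatFunc ℂ) : RatFunc ℂ := RatFunc.eval RatFunc.C B A

/-- The degree of a rational function: the maximum of the degrees of numerator and denominator
in lowest terms. -/
noncomputable def deg (A : RatFunc ℂ) : ℕ := max A.num.natDegree A.denom.natDegree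

/-- The `n`-th iterate `A ∘ ... ∘ A`. -/
noncomputable def iter (A : RatFunc ℂ) (n : ℕ) : RatFunc ℂ := (comp A)^[n] RatFunc.X

/-- `S` is a semigroup of rational functions of degree at least two. -/
def IsSemigroup (S : Set (RatFunc ℂ)) : Prop :=
  S.Nonempty ∧ (∀ A ∈ S, ∀ B ∈ S, comp A B ∈ S) ∧ ∀ A ∈ S, 2 ≤ deg A

/-- Condition 3 of the problem. -/
def Condition3 (S : Set (RatFunc ℂ)) : Prop :=
  ∀ A ∈ S, ∀ B ∈ S, ∃ k l : ℕ, 1 ≤ k ∧ 1 ≤ l ∧
    iter A (2 * k) = comp (iter A k) (iter B l) ∧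
    iter B (2 * l) = comp (iter B l) (iter A k)

/-- `S` is right amenable: there is a finitely additive probability measure `μ` on all subsets
of `S` with `μ {W ∈ S | W ∘ A ∈ T} = μ T` for all `T ⊆ S` and `A ∈ S`. -/
def RightAmenable (S : Set (RatFunc ℂ)) : Prop :=
  ∃ μ : Set (RatFunc ℂ) → ℝ, (∀ T, T ⊆ S → 0 ≤ μ T) ∧ μ S = 1 ∧
    (∀ T U, T ⊆ S → U ⊆ S → Disjoint T U → μ (T ∪ U) = μ T + μ U) ∧
    ∀ T, T ⊆ S → ∀ A ∈ S, μ {W | W ∈ S ∧ comp W A ∈ T} = μ T

/-- Every semigroup of rational functions of degree at least two that satisfies condition 3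
is right amenable. -/
theorem result (S : Set (RatFunc ℂ)) (hS : IsSemigroup S) (h3 : Condition3 S) :
    RightAmenable S :=
  Pool.Agent.Helper65.main_c3 S hS.1 hS.2.1 hS.2.2 h3

end Pool.Agent.Results.MP_9c370f_an.ThreeImpliesOne
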